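import Pool.Agent.H979.QIP.PP3

set_option autoImplicit false

open MeasureTheory ProbabilityTheory Filter Topology Set
open scoped ENNReal NNReal

namespace Pool.Agent.Results.MP_5bf1c5_pr.QIP

open Pool.Agent.H979.QIP

/-- The quenched invariance principle for the random walk on a discrete point process, in the
Skorokhod space, under (A1), (A2) and a moment of order `p ≥ 2` of the distances `f_e`
(so under (A3), and even with `ε₀ = 0`). -/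
theorem result (d : ℕ) (hd : 2 ≤ d) (Q : Measure (Cfg d)) [IsProbabilityMeasure Q]
    (hA1 : ∀ i : Fin d, Ergodic (th (Pi.single i 1)) Q)
    (hA2 : Q {ω | ∀ x, ω x = false} < 1)
    (p : ℝ) (hp : 2 ≤ p)
    (hA3 : ∀ (i : Fin d) (s : Bool),
      ∫⁻ ω, (fe ω (uv i s) : ℝ≥0∞) ^ p ∂(ProbabilityTheory.cond Q (Oc d)) < ∞) :
    ∃ (D : Matrix (Fin d) (Fin d) ℝ), D.PosDef ∧
    ∃ (Ω' : Type) (mΩ' : MeasurableSpace Ω') (P' : Measure Ω'), IsProbabilityMeasure P' ∧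
    ∃ (B : ℝ → Ω' → (Fin d → ℝ)) (hB : ∀ ω', Continuous (fun t => B t ω')),
      (∀ t, Measurable (B t)) ∧
      (∀ (k : ℕ) (t : Fin k → ℝ) (u : Fin k → Fin d → ℝ), (∀ j, 0 ≤ t j) →
        ∫ ω', Complex.exp (Complex.I * ((∑ j, ∑ a, u j a * B (t j) ω' a : ℝ) : ℂ)) ∂P' =
          Complex.exp (-((∑ j, ∑ l, min (t j) (t l) *
              (∑ a, ∑ b, u j a * D a b * u l b) : ℝ) : ℂ) / 2)) ∧
      ∀ᵐ ω ∂(ProbabilityTheory.cond Q (Oc d)),
        (∃ (Ξ : Type) (_ : MeasurableSpace Ξ) (Pw : Measure Ξ) (X : ℕ → Ξ → (Fin d → ℤ)),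
          IsProbabilityMeasure Pw ∧ IsWalk ω Pw X) ∧
        ∀ (Ξ : Type) (_ : MeasurableSpace Ξ) (Pw : Measure Ξ) (X : ℕ → Ξ → (Fin d → ℤ)),
          IsProbabilityMeasure Pw → IsWalk ω Pw X →
          ∀ F : Sk d → ℝ, Continuous F → (∃ C : ℝ, ∀ x, |F x| ≤ C) →
            Tendsto (fun n : ℕ => ∫ ξ, F (spath n (fun k => X k ξ)) ∂Pw) atTop
              (𝓝 (∫ ω', F (wpath (fun t => B t ω') (hB ω')) ∂P')) := by
  obtain ⟨S, hS, Ω', mΩ', P', hP', W, hWc, hWm, hW, h⟩ :=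
    skor hd hA1 hA2 hp (fun i s => (hA3 i s).ne)
  refine ⟨S, hS, Ω', mΩ', P', hP', W, hWc, hWm, hW, ?_⟩
  filter_upwards [h] with ω hω
  exact ⟨hω.1, fun Ξ mΞ Pw X hPw hX F hF hb => (hω.2 Ξ mΞ Pw X hPw hX).1 F hF hb⟩

end Pool.Agent.Results.MP_5bf1c5_pr.QIP
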